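import Mathlib

open Filter Topology unitInterval

namespace Pool.Agent.Results.MP_c65f17_an.NoSup

section
variable {X : Type} [NormedAddCommGroup X] [NormedSpace ℝ X]

/-- A closed cone. -/
def IsCone (P : Set X) : Prop :=
  IsClosed P ∧ 0 ∈ P ∧ (∀ x ∈ P, ∀ y ∈ P, x + y ∈ P) ∧ (∀ c : ℝ, 0 ≤ c → ∀ x ∈ P, c • x ∈ P) ∧
    ∀ x ∈ P, -x ∈ P → x = 0

/-- A normal cone. -/
def IsNormal (P : Set X) : Prop := ∃ C ≥ (1 : ℝ), ∀ x ∈ P, ∀ y, y - x ∈ P → ‖x‖ ≤ C * ‖y‖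

/-- `u` is an upper bound of the sequence `x`. -/
def IsUB (P : Set X) (x : ℕ → X) (u : X) : Prop := ∀ j, u - x j ∈ P

end

def P : Set (C(I, ℝ) × ℝ) := {x | (∀ t, 0 ≤ x.1 t) ∧ 0 ≤ x.2 ∧ x.2 ≤ x.1 1}

noncomputable def x (n : ℕ) : C(I, ℝ) × ℝ := (⟨fun t => 1 - (t : ℝ) ^ n, by fun_prop⟩, 0)

theorem result : ∃ (X : Type) (_ : NormedAddCommGroup X) (_ : NormedSpace ℝ X)
    (_ : CompleteSpace X) (P : Set X) (x : ℕ → X), IsCone P ∧ IsNormal P ∧
    (∀ y, ∃ a ∈ P, ∃ b ∈ P, y = a - b) ∧ (∀ j k, j ≤ k → x k - x j ∈ P) ∧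
    (∃ u, IsUB P x u ∧ ∀ v, IsUB P x v → u - v ∈ P → v = u) ∧
    ¬ ∃ s, IsUB P x s ∧ ∀ v, IsUB P x v → v - s ∈ P := by
  have hu : ∀ c : ℝ, 0 ≤ c → c ≤ 1 → IsUB P x (1, c) := fun c h0 h1 j =>
    ⟨fun t => by simpa [x] using pow_nonneg t.2.1 j, by simpa [x] using h0, by simpa [x] using h1⟩
  have hmin : ∀ v, IsUB P x v → (1, 1) - v ∈ P → v = (1, 1) := by
    rintro ⟨y, a⟩ hv ⟨h1, h2, h3⟩
    have h4 : ∀ t : I, t < 1 → y t = 1 := fun t ht => by
      refine le_antisymm (by simpa using h1 t) ?_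
      have := (tendsto_pow_atTop_nhds_zero_of_lt_one t.2.1 ht).const_sub 1
      rw [sub_zero] at this
      exact le_of_tendsto' this fun n => by simpa [x] using (hv n).1 t
    have h5 : y = 1 := by
      ext t
      rcases (le_one' (t := t)).lt_or_eq with ht | rfl
      · exact h4 t ht
      · exact (isClosed_eq y.continuous continuous_const).closure_subset_iff.2
          (show Set.Iio 1 ⊆ _ from h4) (by rw [closure_Iio' ⟨0, zero_lt_one⟩]; simp)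
    subst h5
    simp only [Prod.mk_sub_mk, sub_self, ContinuousMap.zero_apply] at h2 h3
    rw [show a = 1 by linarith]
  refine ⟨_, inferInstance, inferInstance, inferInstance, P, x, ⟨?_, by simp [P], ?_, ?_, ?_⟩,
    ⟨1, le_rfl, ?_⟩, fun y => ?_, fun j k h => ⟨fun t => ?_, by simp [x], by simp [x]⟩,
    ⟨_, hu 1 zero_le_one le_rfl, hmin⟩, ?_⟩
  · simp only [P, Set.ofPred_and, Set.ofPred_forall]
    exact (isClosed_iInter fun t => isClosed_le continuous_const (by fun_prop)).inter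
      ((isClosed_le continuous_const (by fun_prop)).inter (isClosed_le (by fun_prop) (by fun_prop)))
  · rintro a ⟨h1, h2, h3⟩ b ⟨h4, h5, h6⟩
    exact ⟨fun t => add_nonneg (h1 t) (h4 t), add_nonneg h2 h5, add_le_add h3 h6⟩
  · rintro c hc a ⟨h1, h2, h3⟩
    exact ⟨fun t => mul_nonneg hc (h1 t), mul_nonneg hc h2, mul_le_mul_of_nonneg_left h3 hc⟩
  · rintro a ⟨h1, h2, -⟩ ⟨h4, h5, -⟩
    exact Prod.ext (ContinuousMap.ext fun t => le_antisymm (by simpa using h4 t) (h1 t))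
      (le_antisymm (by simpa using h5) h2)
  · rintro a ⟨h1, h2, -⟩ b ⟨h4, h5, -⟩
    rw [one_mul]
    refine max_le_max ((ContinuousMap.norm_le _ (norm_nonneg _)).2 fun t =>
      le_trans ?_ (b.1.norm_coe_le_norm t)) ?_
    · exact abs_le_abs_of_nonneg (h1 t) (by simpa using h4 t)
    · exact abs_le_abs_of_nonneg h2 (by simpa using h5)
  · have h1 : ∀ t, |y.1 t| ≤ ‖y‖ := fun t => (y.1.norm_coe_le_norm t).trans (norm_fst_le y)
    have h2 : |y.2| ≤ ‖y‖ := norm_snd_le y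
    have h3 := norm_nonneg y
    refine ⟨y + (.const _ (3 * ‖y‖), ‖y‖), ⟨fun t => ?_, ?_, ?_⟩, (.const _ (3 * ‖y‖), ‖y‖),
      ⟨fun t => ?_, h3, ?_⟩, by simp⟩ <;> simp
    · linarith [(abs_le.1 (h1 t)).1]
    · linarith [(abs_le.1 h2).1]
    · linarith [(abs_le.1 (h1 1)).1, (abs_le.1 h2).2]
    · linarith
  · simpa [x] using pow_le_pow_of_le_one t.2.1 t.2.2 h
  · rintro ⟨s, h1, h2⟩
    have h3 := (h2 _ (hu 0 le_rfl zero_le_one)).2.1
    rw [hmin s h1 (h2 _ (hu 1 zero_le_one le_rfl))] at h3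
    norm_num at h3

end Pool.Agent.Results.MP_c65f17_an.NoSup
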